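import Pool.Agent.H859R2.PerpEx2

set_option autoImplicit false

namespace Pool.Agent.Results.MP_1de93e_gt.NeitherRadonNorRiemannian

open Set Pool.Agent.H859R2.Perp

/-- On the whole plane there is a complete Finslerian projective-metric plane with symmetric
perpendicularity which is not isometric to any Minkowski plane and all of whose Finsler functions
have no Euclidean tangent norm at all. -/
theorem result :
    ∃ F d : ℝ × ℝ → ℝ × ℝ → ℝ, ProjPlane univ d ∧ Complete univ d ∧ Finsler univ F d ∧
      SymmetricPerp univ d ∧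
      (∀ F', Finsler univ F' d → ∀ P, ¬ IsEuclidean (F' P)) ∧
      ¬ ∃ (N : ℝ × ℝ → ℝ) (φ : ℝ × ℝ → ℝ × ℝ), IsNorm N ∧ Function.Surjective φ ∧
        ∀ X Y, d X Y = N (φ Y - φ X) := by
  refine ⟨exF, exd, ex_plane, ex_complete, ex_finsler, ex_symmetric, ?_, ex_not_isometric⟩
  intro F' hF' P h
  have e : F' P = exF P := funext fun u => ex_finsler_unique hF' P u
  rw [e] at h
  exact ex_not_euclidean P h

end Pool.Agent.Results.MP_1de93e_gt.NeitherRadonNorRiemannian
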