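import Pool.Agent.H859R2.PerpMain
import Pool.Agent.Helper831.RadonBridge

set_option autoImplicit false

namespace Pool.Agent.Results.MP_1de93e_gt.RadonOrRiemannianPieces

open Set Pool.Agent.H859R2.Perp

/-- The classification of the Finslerian projective-metric planes with symmetric
perpendicularity, when all metric circles are strictly convex or Birkhoff orthogonality in the
tangent Minkowski planes implies perpendicularity of lines.

(1) Affine type, complete or not: the plane is Riemannian, or it is a piece of a Radon plane up to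
a projective map.

(2) Affine type, complete: the plane is Riemannian or it is a Radon plane.

(3) Elliptic type with strictly convex circles: the plane is Riemannian. -/
theorem result :
    (∀ (M : Set (ℝ × ℝ)) (F d : ℝ × ℝ → ℝ × ℝ → ℝ), ProjPlane M d → Finsler M F d →
      SymmetricPerp M d → (ConvexCircles M d ∨ TangentPerp M F d) →
        (∀ P ∈ M, IsEuclidean (F P)) ∨
          ∃ N, IsRadon N ∧ ∃ B : Matrix (Fin 3) (Fin 3) ℝ, B.det ≠ 0 ∧
            (∀ X ∈ M, 0 < hom B X 0) ∧ ∀ X ∈ M, ∀ Y ∈ M, d X Y = N (proj B Y - proj B X)) ∧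
    (∀ (M : Set (ℝ × ℝ)) (F d : ℝ × ℝ → ℝ × ℝ → ℝ), ProjPlane M d → Complete M d →
      Finsler M F d → SymmetricPerp M d → (ConvexCircles M d ∨ TangentPerp M F d) →
        (∀ P ∈ M, IsEuclidean (F P)) ∨
          (M = univ ∧ ∃ N, IsRadon N ∧ ∀ X Y, d X Y = N (Y - X))) ∧
    (∀ (L : ℝ) (d : Projectivization ℝ ((ℝ × ℝ) × ℝ) → Projectivization ℝ ((ℝ × ℝ) × ℝ) → ℝ)
      (F : (ℝ × ℝ) × ℝ → (ℝ × ℝ) × ℝ → ℝ),
      Pool.Agent.Helper831.RadonPlane.EllipticPlane L d →
      Pool.Agent.Helper831.RadonPlane.EllipticFinsler F d →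
      Pool.Agent.Helper831.RadonPlane.EllipticSymmetric d →
        ∀ x, x ≠ 0 → Pool.Agent.Helper831.RadonPlane.IsEuclidean (F x)) := by
  refine ⟨?_, ?_, ?_⟩
  · intro M F d hd hF hs h
    rcases classification hd hF hs h with h | ⟨N, hN, B, h1, h2, h3⟩
    · exact Or.inl h
    · exact Or.inr ⟨N, radon_of hN, B, h1, h2, h3⟩
  · intro M F d hd hc hF hs h
    exact classification_complete hd hc hF hs h
  · intro L d F h1 h2 h3 x hx
    exact Pool.Agent.Helper831.RadonPlane.elliptic h1 h2 h3 x hx

end Pool.Agent.Results.MP_1de93e_gt.RadonOrRiemannianPieces
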